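import Pool.Agent.H52.V.A4.TH866.SR.Weights
import Pool.Agent.H52.V.S8.H38R2.CG2.AP
import Pool.Agent.H52.V.S8.H38R2.CG3.Fin

/-!
# Few exceptional discriminants without prime factor in `Q` in short intervals
-/

set_option autoImplicit false

namespace Pool.Agent.TH866.SR

open Finset Filter NumberField Pool.Agent.H38R2.CG Pool.Agent.H38R2.CG2 Pool.Agent.H38R2.CG3
open Pool.Agent.H38R2.CG.AS1h Pool.Agent.H38R2.CG.FINh
open scoped Classical

/-- number of residues modulo `Qz z` without prime factor in `Q ∩ [3, z]` -/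
lemma rcq (Q : Set ℕ) (z : ℕ) : (((Finset.range (Qz z)).filter (fun r =>
    ∀ q ∈ (Finset.Icc 3 z).filter (fun q => q.Prime ∧ q ∈ Q), ¬ q ∣ r)).card : ℝ) =
      Qz z * pq Q z := by
  set S := (Finset.Icc 3 z).filter (fun q => q.Prime ∧ q ∈ Q) with hS
  have hSp : ∀ q ∈ S, Nat.Prime q := fun q hq => (Finset.mem_filter.1 hq).2.1
  set P := ∏ q ∈ S, q with hP
  have hPdvd : P ∣ Qz z := by
    unfold Qz
    refine Dvd.dvd.mul_left ?_ _
    have h1 : P ∣ ∏ q ∈ (Finset.Icc 3 z).filter Nat.Prime, q := by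
      apply Finset.prod_dvd_prod_of_subset
      intro q hq
      rw [hS, Finset.mem_filter] at hq
      rw [Finset.mem_filter]
      exact ⟨hq.1, hq.2.1⟩
    refine h1.trans ?_
    rw [Finset.prod_pow]
    exact dvd_pow_self _ (by norm_num)
  obtain ⟨k, hk⟩ := hPdvd
  have hf : P.primeFactors = S := by
    rw [hP]
    exact Nat.primeFactors_prod hSp
  have hiff : ∀ r : ℕ, (∀ q ∈ S, ¬ q ∣ r) ↔ P.Coprime r := by
    intro r
    rw [hP, Nat.coprime_prod_left_iff]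
    refine forall₂_congr fun q hq => ?_
    exact ((hSp q hq).coprime_iff_not_dvd).symm
  have hcard : ((Finset.range (Qz z)).filter (fun r => ∀ q ∈ S, ¬ q ∣ r)).card =
      k * Nat.totient P := by
    have h1 : (Finset.range (Qz z)).filter (fun r => ∀ q ∈ S, ¬ q ∣ r) =
        (Finset.range (P * k)).filter (fun r => P.Coprime r) := by
      rw [hk]
      exact Finset.filter_congr fun r _ => hiff r
    rw [h1]
    exact RCh.cnt P k
  have h2 := Nat.totient_eq_mul_prod_factors P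
  rw [hf] at h2
  have h3 : ((Nat.totient P : ℕ) : ℝ) = P * ∏ q ∈ S, (1 - (1 : ℝ) / q) := by
    have h4 := congrArg (fun x : ℚ => (x : ℝ)) h2
    push_cast at h4
    rw [h4]
    simp only [one_div]
  calc _ = ((k * Nat.totient P : ℕ) : ℝ) := by
        rw [← hcard]
    _ = _ := by
        rw [hk]
        push_cast
        rw [h3]
        unfold pq
        rw [← hS]
        ring

/-- the weight of `D` is one if no prime of `Q` other than 2 divides `D` -/
lemma wtq_one {Q : Set ℕ} {z X : ℕ} {a δ : ℝ} (hX : 1 ≤ X) (hδ : 0 < δ)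
    {C0 : ℕ} (h : SWt z X (PA a X) δ C0 (rq Q z a X δ)) (h1 : rq Q z a X δ 1 = 1) {D : ℕ}
    (hD : 1 ≤ D) (hQ : ∀ q ∈ Q, q.Prime → 3 ≤ q → ¬ q ∣ D) : wt (rq Q z a X δ) D = 1 := by
  unfold wt
  have key : ∀ d ∈ D.divisors, d ≠ 1 → rq Q z a X δ d = 0 := by
    intro d hd hd1
    by_contra h0
    obtain ⟨h2, h3, h4, h5, -⟩ := h.supp d h0
    have hodd : Nat.Coprime d 2 := by
      refine Nat.Coprime.coprime_dvd_right ?_ h5
      exact Dvd.dvd.trans (by norm_num) (AS1h.dvd16 z)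
    obtain ⟨p, hp, hpd⟩ := Nat.exists_prime_and_dvd hd1
    have hpQ := (rq_ne hX hδ h0).2 p (Nat.mem_primeFactors.2 ⟨hp, hpd, by omega⟩)
    have hp2 : p ≠ 2 := by
      rintro rfl
      have := Nat.Coprime.eq_one_of_dvd (Nat.coprime_comm.1 hodd) hpd
      omega
    have hp3 : 3 ≤ p := by
      have := hp.two_le
      omega
    exact hQ p hpQ hp hp3 (hpd.trans (Nat.mem_divisors.1 hd).1)
  rw [Finset.sum_eq_single_of_mem 1 (Nat.mem_divisors.2 ⟨one_dvd _, by omega⟩) key, h1]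

/-- few exceptional discriminants without prime factor in `Q` in a short interval -/
theorem short_q (hBF : P2_BF) (hHB : P2_HB) (hHD : P2_HD) (hCH : P2_CH) (hBHa : P2_BHa)
    (hAS : P3_AS0) (a : ℝ) (ha : 2 < a) (t0 : ℝ)
    (ht0 : 0 < t0) (ε : ℝ) (hε : 0 < ε) : ∃ η : ℝ, 0 < η ∧ η ≤ 1 ∧ ∃ X0 : ℕ, ∀ X ≥ X0,
    ∀ Q : Set ℕ,
    (((Finset.Ioc X ⌊(1 + η) * X⌋₊).filter (fun D => (∀ q ∈ Q, q.Prime → 3 ≤ q → ¬ q ∣ D) ∧
      IsFund D ∧ Bd a t0 X D)).card : ℝ) ≤ ε * η * X * pq Q X := by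
  have ha1 : 0 < a - 1 := by linarith
  have hcc0 : 0 < cc a := by
    unfold cc
    exact div_pos (by linarith) (by linarith)
  have hcc1 : cc a ≤ 1 / 2 := by
    unfold cc
    rw [div_le_iff₀ (by linarith)]
    linarith
  obtain ⟨C0, hC0, hB⟩ := BHq hBF hHB hHD hCH hBHa (cc a) hcc0 (by linarith)
  have hC0' : (1 : ℝ) ≤ C0 := by exact_mod_cast hC0
  obtain ⟨z0, hz0⟩ := hAS a ha t0 ht0 C0 hC0 (ε / C0) (by positivity)
  set z := max 2 z0 with hz
  have hz2 : 2 ≤ z := le_max_left _ _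
  obtain ⟨η1, hη1, H⟩ := hz0 z (le_max_right _ _)
  obtain ⟨XB, hXB⟩ := hB z hz2 a ha
  have hηpos : 0 < min η1 1 := lt_min hη1 one_pos
  refine ⟨min η1 1, hηpos, min_le_right _ _, ?_⟩
  set η := min η1 1 with hη
  have H' : ∀ r : ℕ, ∃ X0 : ℕ, ∀ X ≥ X0, ∀ ρ : ℕ → ℝ, SWt z X (PA a X) (cc a) C0 ρ →
      FundRes z r →
      ∑ D ∈ (FD z r X η).filter (fun D => Bd a t0 X D), wt ρ D ≤ ε / C0 * WW z X η ρ := by
    intro r
    by_cases hr : FundRes z r
    · obtain ⟨X0, hX0⟩ := H η hηpos (min_le_left _ _) r hr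
      exact ⟨X0, fun X hX ρ hρ _ => hX0 X hX ρ hρ⟩
    · exact ⟨0, fun X _ ρ _ hr' => absurd hr' hr⟩
  choose X0 hX0 using H'
  refine ⟨max (max ((Finset.range (Qz z)).sup X0) XB) 17, ?_⟩
  intro X hX Q
  have hX1 : (Finset.range (Qz z)).sup X0 ≤ X :=
    (le_max_left _ _).trans ((le_max_left _ _).trans hX)
  have hX2 : XB ≤ X := (le_max_right _ _).trans ((le_max_left _ _).trans hX)
  have hX3 : 17 ≤ X := (le_max_right _ _).trans hX
  obtain ⟨hρ, hρ1, hGG⟩ := hXB X hX2 Q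
  set ρ := rq Q z a X (cc a) with hρdef
  have hX17 : (17 : ℝ) ≤ X := by exact_mod_cast hX3
  have hlog : 0 < Real.log X := Real.log_pos (by linarith)
  have hGpos : 0 ≤ GG X ρ := le_trans (by positivity) hρ.low
  set S := (Finset.Ioc X ⌊(1 + η) * X⌋₊).filter (fun D =>
    (∀ q ∈ Q, q.Prime → 3 ≤ q → ¬ q ∣ D) ∧ IsFund D ∧ Bd a t0 X D) with hS
  have hcard : S.card = ∑ r ∈ Finset.range (Qz z), (S.filter (fun D => D % Qz z = r)).card := by
    apply Finset.card_eq_sum_card_fiberwise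
    intro D _
    simp only [Finset.coe_range, Set.mem_Iio]
    exact Nat.mod_lt _ (AS1h.Qz_pos z)
  have hQ : (0 : ℝ) < Qz z := by exact_mod_cast AS1h.Qz_pos z
  have hW : 0 ≤ ε / C0 * WW z X η ρ := by
    unfold WW
    positivity
  have hle : ∀ r ∈ Finset.range (Qz z),
      ((S.filter (fun D => D % Qz z = r)).card : ℝ) ≤
        if (∀ q ∈ (Finset.Icc 3 z).filter (fun q => q.Prime ∧ q ∈ Q), ¬ q ∣ r)
          then ε / C0 * WW z X η ρ else 0 := by
    intro r hr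
    by_cases hfr : FundRes z r ∧
        ∀ q ∈ (Finset.Icc 3 z).filter (fun q => q.Prime ∧ q ∈ Q), ¬ q ∣ r
    · rw [if_pos hfr.2]
      refine le_trans ?_ (hX0 r X (le_trans (Finset.le_sup hr) hX1) ρ hρ hfr.1)
      have hsub : (S.filter (fun D => D % Qz z = r)) ⊆
          ((FD z r X η).filter (fun D => Bd a t0 X D)) := by
        intro D hD
        simp only [hS, FD, DD, Finset.mem_filter] at hD ⊢
        exact ⟨⟨⟨hD.1.1, hD.2⟩, hD.1.2.2.1⟩, hD.1.2.2.2⟩
      have e1 : ((S.filter (fun D => D % Qz z = r)).card : ℝ) =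
          ∑ D ∈ S.filter (fun D => D % Qz z = r), wt ρ D := by
        rw [Finset.sum_congr rfl (g := fun _ => (1 : ℝ)), Finset.sum_const, nsmul_eq_mul, mul_one]
        intro D hD
        simp only [hS, Finset.mem_filter, Finset.mem_Ioc] at hD
        exact wtq_one (by omega) hcc0 hρ hρ1 (by omega) hD.1.2.1
      rw [e1]
      refine Finset.sum_le_sum_of_subset_of_nonneg hsub ?_
      intro D hD _
      simp only [FD, DD, Finset.mem_filter, Finset.mem_Ioc] at hD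
      exact APh.wt_nonneg (by omega) (by linarith) hρ D (by omega)
    · have hemp : (S.filter (fun D => D % Qz z = r)) = ∅ := by
        rw [Finset.filter_eq_empty_iff]
        intro D hD hDr
        apply hfr
        simp only [hS, Finset.mem_filter, Finset.mem_Ioc] at hD
        rw [← hDr]
        refine ⟨AS1h.fundRes z D hD.2.2.1, ?_⟩
        intro q hq hqd
        rw [Finset.mem_filter, Finset.mem_Icc] at hq
        have hqQ : q ∣ Qz z := by
          unfold Qz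
          exact Dvd.dvd.mul_left ((dvd_pow_self q (by norm_num)).trans
            (Finset.dvd_prod_of_mem (fun l => l ^ 2)
              (Finset.mem_filter.2 ⟨Finset.mem_Icc.2 hq.1, hq.2.1⟩))) _
        exact hD.2.1 q hq.2.2 hq.2.1 hq.1.1 ((Nat.dvd_mod_iff hqQ).1 hqd)
      rw [hemp, Finset.card_empty, Nat.cast_zero]
      split_ifs
      · exact hW
      · exact le_rfl
  rw [hcard]
  push_cast
  refine le_trans (Finset.sum_le_sum hle) ?_
  rw [← Finset.sum_filter, Finset.sum_const, nsmul_eq_mul]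
  have hRC' := rcq Q z
  refine (le_of_eq (congrArg (fun t : ℝ => t * (ε / C0 * WW z X η ρ)) hRC')).trans ?_
  show (Qz z : ℝ) * pq Q z * (ε / C0 * WW z X η ρ) ≤ ε * η * X * pq Q X
  unfold WW
  have e2 : (Qz z : ℝ) * pq Q z * (ε / C0 * (η * X / Qz z * GG X ρ)) = ε / C0 * (η * X) *
        (GG X ρ * pq Q z) := by
    field_simp
  rw [e2]
  calc ε / C0 * (η * X) * (GG X ρ * pq Q z)
      ≤ ε / C0 * (η * X) * (C0 * pq Q X) :=
        mul_le_mul_of_nonneg_left hGG (by positivity)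
    _ = ε * η * X * pq Q X := by
        field_simp

/-- comparison of the products up to `√Z` and up to `Z` -/
lemma pq_sqrt {L : ℝ} (hL : ∀ x : ℝ, 1 ≤ x →
      ∑ p ∈ (Finset.Ioc ⌊√x⌋₊ ⌊x⌋₊).filter Nat.Prime, (1 : ℝ) / p ≤ L) (Q : Set ℕ) (Z : ℕ)
    (hZ : 1 ≤ Z) : pq Q ⌊√(Z : ℝ)⌋₊ ≤ Real.exp (2 * L) * pq Q Z := by
  set A : Finset ℕ := (Finset.Icc 3 Z).filter (fun q => q.Prime ∧ q ∈ Q) with hA
  set M := ⌊√(Z : ℝ)⌋₊ with hM
  have hsplit : pq Q Z = (∏ p ∈ A.filter (fun p => p ≤ M), (1 - (1 : ℝ) / p)) *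
      ∏ p ∈ A.filter (fun p => ¬ p ≤ M), (1 - (1 : ℝ) / p) := by
    unfold pq
    rw [← hA, ← Finset.prod_filter_mul_prod_filter_not A (fun p => p ≤ M)]
  have h1 : pq Q M ≤ ∏ p ∈ A.filter (fun p => p ≤ M), (1 - (1 : ℝ) / p) := by
    apply BHch.prod_anti
    · intro p hp
      rw [hA, Finset.mem_filter, Finset.mem_filter, Finset.mem_Icc] at hp
      rw [Finset.mem_filter, Finset.mem_Icc]
      exact ⟨⟨hp.1.1.1, hp.2⟩, hp.1.2⟩
    · intro p hp
      exact (Finset.mem_filter.mp hp).2.1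
  have h2 : Real.exp (-(2 * L)) ≤ ∏ p ∈ A.filter (fun p => ¬ p ≤ M), (1 - (1 : ℝ) / p) := by
    apply BHch.prod_ge'
    · intro p hp
      exact (Finset.mem_filter.mp (Finset.mem_filter.mp hp).1).2.1
    · refine le_trans ?_ (hL Z (by exact_mod_cast hZ))
      apply Finset.sum_le_sum_of_subset_of_nonneg
      · intro p hp
        rw [hA, Finset.mem_filter, Finset.mem_filter, Finset.mem_Icc] at hp
        rw [Finset.mem_filter, Finset.mem_Ioc, Nat.floor_natCast]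
        exact ⟨⟨by omega, hp.1.1.2⟩, hp.1.2.1⟩
      · intro p _ _
        positivity
  have h3 : 0 < ∏ p ∈ A.filter (fun p => p ≤ M), (1 - (1 : ℝ) / p) :=
    BHch.prod_pos' _ (fun p hp => (Finset.mem_filter.mp (Finset.mem_filter.mp hp).1).2.1)
  have h4 : Real.exp (2 * L) * Real.exp (-(2 * L)) = 1 := by rw [← Real.exp_add]; simp
  rw [hsplit]
  calc pq Q M ≤ ∏ p ∈ A.filter (fun p => p ≤ M), (1 - (1 : ℝ) / p) := h1
    _ = (∏ p ∈ A.filter (fun p => p ≤ M), (1 - (1 : ℝ) / p)) *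
        (Real.exp (2 * L) * Real.exp (-(2 * L))) := by rw [h4, mul_one]
    _ = Real.exp (2 * L) * ((∏ p ∈ A.filter (fun p => p ≤ M), (1 - (1 : ℝ) / p)) *
        Real.exp (-(2 * L))) := by ring
    _ ≤ _ := by
        apply mul_le_mul_of_nonneg_left _ (Real.exp_pos _).le
        exact mul_le_mul_of_nonneg_left h2 h3.le

/-- a weak lower bound for the product over all primes -/
lemma pq_low {L : ℝ} (hL0 : 0 < L) (hL : ∀ x : ℝ, 1 ≤ x →
      ∑ p ∈ (Finset.Ioc ⌊√x⌋₊ ⌊x⌋₊).filter Nat.Prime, (1 : ℝ) / p ≤ L) :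
    ∃ c : ℝ, 0 < c ∧ ∀ Q : Set ℕ, ∀ Y : ℕ, 1 ≤ Y → c * (Y : ℝ) ^ (-(1 / 8) : ℝ) ≤ pq Q Y := by
  have htend : Tendsto (fun X : ℕ => (X : ℝ) ^ (1 / 16 : ℝ)) atTop atTop :=
    (tendsto_rpow_atTop (by norm_num)).comp tendsto_natCast_atTop_atTop
  obtain ⟨Y0, hY0⟩ := Filter.eventually_atTop.mp
    (htend.eventually_ge_atTop (Real.exp (2 * L)))
  set Y1 := max Y0 4 with hY1
  refine ⟨pq Set.univ Y1, pq_pos _ _, ?_⟩
  intro Q Y hY
  refine le_trans ?_ (pq_univ_le Q Y)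
  clear Q
  induction Y using Nat.strong_induction_on with
  | _ Y ih =>
    have hYR : (1 : ℝ) ≤ Y := by exact_mod_cast hY
    by_cases hc : Y ≤ Y1
    · have h1 := pq_anti Set.univ hc
      have h2 : (Y : ℝ) ^ (-(1 / 8) : ℝ) ≤ 1 :=
        Real.rpow_le_one_of_one_le_of_nonpos hYR (by norm_num)
      have h3 := pq_pos Set.univ Y1
      nlinarith
    · push Not at hc
      have hYY0 : Y0 ≤ Y := (le_max_left _ _).trans hc.le
      have hY4 : 4 < Y := lt_of_le_of_lt (le_max_right _ _) hc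
      have h0 := hY0 Y hYY0
      set M := ⌊√(Y : ℝ)⌋₊ with hM
      have hM1 : 1 ≤ M := by
        apply Nat.le_floor
        push_cast
        rw [Real.one_le_sqrt]
        exact hYR
      have hMY : M < Y := by
        have h5 : (M : ℝ) ≤ √(Y : ℝ) := Nat.floor_le (Real.sqrt_nonneg _)
        have h6 : √(Y : ℝ) < Y := by
          rw [Real.sqrt_lt' (by linarith)]
          have : (4 : ℝ) < Y := by exact_mod_cast hY4
          nlinarith
        exact_mod_cast lt_of_le_of_lt h5 h6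
      have hMR : (0 : ℝ) < M := by exact_mod_cast hM1
      have h7 := ih M hMY hM1
      have h8 := pq_sqrt hL Set.univ Y hY
      have h9 : (Y : ℝ) ^ (-(1 / 16) : ℝ) ≤ (M : ℝ) ^ (-(1 / 8) : ℝ) := by
        have h5 : (M : ℝ) ≤ √(Y : ℝ) := Nat.floor_le (Real.sqrt_nonneg _)
        have h10 : (√(Y : ℝ)) ^ (-(1 / 8) : ℝ) ≤ (M : ℝ) ^ (-(1 / 8) : ℝ) :=
          Real.rpow_le_rpow_of_nonpos hMR h5 (by norm_num)
        refine le_trans (le_of_eq ?_) h10
        rw [Real.sqrt_eq_rpow, ← Real.rpow_mul (by positivity)]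
        norm_num
      have hE : 0 < Real.exp (2 * L) := Real.exp_pos _
      have hpp := pq_pos Set.univ Y1
      have hY16 : (Y : ℝ) ^ (-(1 / 8) : ℝ) * (Y : ℝ) ^ (1 / 16 : ℝ) = (Y : ℝ) ^ (-(1 / 16) : ℝ) := by
        rw [← Real.rpow_add (by linarith)]
        norm_num
      have hY8 : 0 < (Y : ℝ) ^ (-(1 / 8) : ℝ) := Real.rpow_pos_of_pos (by linarith) _
      have h11 : Real.exp (2 * L) * (pq Set.univ Y1 * (Y : ℝ) ^ (-(1 / 8) : ℝ)) ≤
          Real.exp (2 * L) * pq Set.univ Y := by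
        calc Real.exp (2 * L) * (pq Set.univ Y1 * (Y : ℝ) ^ (-(1 / 8) : ℝ))
            ≤ (Y : ℝ) ^ (1 / 16 : ℝ) * (pq Set.univ Y1 * (Y : ℝ) ^ (-(1 / 8) : ℝ)) :=
              mul_le_mul_of_nonneg_right h0 (by positivity)
          _ = pq Set.univ Y1 * ((Y : ℝ) ^ (-(1 / 8) : ℝ) * (Y : ℝ) ^ (1 / 16 : ℝ)) := by ring
          _ = pq Set.univ Y1 * (Y : ℝ) ^ (-(1 / 16) : ℝ) := by rw [hY16]
          _ ≤ pq Set.univ Y1 * (M : ℝ) ^ (-(1 / 8) : ℝ) :=
              mul_le_mul_of_nonneg_left h9 hpp.le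
          _ ≤ pq Set.univ M := h7
          _ ≤ _ := h8
      exact le_of_mul_le_mul_left h11 hE

end Pool.Agent.TH866.SR
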